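import Mathlib
import Pool.Agent.R163.VPath

/-!
MP_f041cb_co, Q1 (full answer, TRUE).

For every `k ≥ 1` and all `m_1, …, m_k ≥ 1` the weak and the induced Boolean Ramsey numbers of
`V_{m_1,m_1}, …, V_{m_k,m_k}` are both equal to `m_1 + … + m_k + 1`.
-/

namespace Pool.Agent.Results.MP_f041cb_co.SymmetricVRamsey

open Finset

/-- The poset `V_{m,n}`: a minimum `⊥` with two disjoint chains `Fin m` and `Fin n` above it
(Mathlib's disjoint sum order on `Fin m ⊕ Fin n`, no relation between the two chains). -/
abbrev V (m n : ℕ) : Type := WithBot (Fin m ⊕ Fin n)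

/-- Every colouring `c : 2^[n] → [k]` has, for some `i`, a subposet (induced) copy of `P i` in
`B_n = (2^[n], ⊆)` all of whose elements have colour `i`. -/
def Arrows {k : ℕ} (P : Fin k → Type) [∀ i, PartialOrder (P i)] (n : ℕ) : Prop :=
  ∀ c : Finset (Fin n) → Fin k, ∃ i : Fin k, ∃ φ : P i → Finset (Fin n),
    Function.Injective φ ∧ (∀ x y, x ≤ y ↔ φ x ⊆ φ y) ∧ ∀ x, c (φ x) = i

/-- The same with weak subposet copies. -/
def WeakArrows {k : ℕ} (P : Fin k → Type) [∀ i, PartialOrder (P i)] (n : ℕ) : Prop :=
  ∀ c : Finset (Fin n) → Fin k, ∃ i : Fin k, ∃ φ : P i → Finset (Fin n),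
    Function.Injective φ ∧ (∀ x y, x ≤ y → φ x ⊆ φ y) ∧ ∀ x, c (φ x) = i

theorem Arrows.weak {k : ℕ} {P : Fin k → Type} [∀ i, PartialOrder (P i)] {n : ℕ}
    (h : Arrows P n) : WeakArrows P n := by
  intro c
  obtain ⟨i, φ, h1, h2, h3⟩ := h c
  exact ⟨i, φ, h1, fun x y hxy => (h2 x y).1 hxy, h3⟩

/-- Two chains above `S`, one containing `a` and avoiding `b`, the other containing `b` and
avoiding `a`, give an induced copy of `V_{M,M}`. -/
theorem glue {N M : ℕ} (S : Finset (Fin N)) (a b : Fin N) (haS : a ∉ S) (hbS : b ∉ S)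
    (f g : Fin M → Finset (Fin N)) (hf : StrictMono f) (hg : StrictMono g)
    (hfS : ∀ j, insert a S ⊆ f j) (hfb : ∀ j, b ∉ f j)
    (hgS : ∀ j, insert b S ⊆ g j) (hga : ∀ j, a ∉ g j) :
    ∃ φ : V M M → Finset (Fin N), Function.Injective φ ∧ (∀ x y, x ≤ y ↔ φ x ⊆ φ y) ∧
      φ ⊥ = S ∧ (∀ j, φ ((Sum.inl j : Fin M ⊕ Fin M) : V M M) = f j) ∧
      (∀ j, φ ((Sum.inr j : Fin M ⊕ Fin M) : V M M) = g j) := by
  let φ : V M M → Finset (Fin N) := fun v => WithBot.recBotCoe S (fun s => Sum.elim f g s) v
  have h0 : φ ⊥ = S := rfl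
  have hl : ∀ j, φ ((Sum.inl j : Fin M ⊕ Fin M) : V M M) = f j := fun j => rfl
  have hr : ∀ j, φ ((Sum.inr j : Fin M ⊕ Fin M) : V M M) = g j := fun j => rfl
  have hiff : ∀ x y, x ≤ y ↔ φ x ⊆ φ y := by
    intro x y
    induction x using WithBot.recBotCoe with
    | bot =>
      simp only [bot_le, true_iff]
      induction y using WithBot.recBotCoe with
      | bot => exact subset_rfl
      | coe y =>
        rcases y with j | j
        · rw [h0, hl]; exact (subset_insert _ _).trans (hfS j)
        · rw [h0, hr]; exact (subset_insert _ _).trans (hgS j)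
    | coe x =>
      induction y using WithBot.recBotCoe with
      | bot =>
        constructor
        · intro h
          exact absurd h (WithBot.not_coe_le_bot _)
        · intro h
          rcases x with i | i
          · rw [h0, hl] at h
            exact absurd (h (hfS i (mem_insert_self _ _))) haS
          · rw [h0, hr] at h
            exact absurd (h (hgS i (mem_insert_self _ _))) hbS
      | coe y =>
        rw [WithBot.coe_le_coe]
        rcases x with i | i <;> rcases y with j | j
        · rw [hl, hl, Sum.inl_le_inl_iff]; exact hf.le_iff_le.symm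
        · rw [hl, hr]
          constructor
          · intro h; exact absurd h Sum.not_inl_le_inr
          · intro h; exact absurd (h (hfS i (mem_insert_self _ _))) (hga j)
        · rw [hl, hr]
          constructor
          · intro h; exact absurd h Sum.not_inr_le_inl
          · intro h; exact absurd (h (hgS i (mem_insert_self _ _))) (hfb j)
        · rw [hr, hr, Sum.inr_le_inr_iff]; exact hg.le_iff_le.symm
  refine ⟨φ, ?_, hiff, h0, hl, hr⟩
  intro x y hxy
  exact le_antisymm ((hiff x y).2 (by rw [hxy])) ((hiff y x).2 (by rw [hxy]))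

/-- The upper bound. -/
theorem upper {k : ℕ} (m : Fin k → ℕ) (hm : ∀ i, 1 ≤ m i) :
    Arrows (fun i => V (m i) (m i)) (∑ i, m i + 1) := by
  classical
  set N := ∑ i, m i + 1 with hN
  intro c
  by_contra hno
  push Not at hno
  have hkN : k + 1 ≤ N := by
    have : ∑ _i : Fin k, 1 ≤ ∑ i, m i := Finset.sum_le_sum fun i _ => hm i
    simp at this
    omega
  let W : Finset (Fin N) := univ.filter fun x => x.val < k + 1
  let Y : ℕ → Finset (Fin N) := fun t => univ.filter fun x => k + 1 ≤ x.val ∧ x.val < k + 1 + t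
  have hWcard : W.card = (univ : Finset (Fin k)).card + 1 := by
    simp only [W, card_univ, Fintype.card_fin]
    rw [Fin.card_filter_val_lt]
    omega
  have hWY : ∀ x ∈ W, ∀ t, x ∉ Y t := by
    intro x hx t hxt
    simp only [W, Y, mem_filter, mem_univ, true_and] at hx hxt
    omega
  have hYmono : Monotone Y := by
    intro s t hst x hx
    simp only [Y, mem_filter, mem_univ, true_and] at hx ⊢
    omega
  let cc : ℕ → Finset (Fin N) → Fin k := fun t A => c (A ∪ Y t)
  let RR : ℕ → Finset (Fin N) → Fin N → Fin N → Prop := fun t A x y =>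
    ¬ ∃ f : Fin (m (cc t A)) → Finset (Fin N), StrictMono f ∧
      ∀ j, c (f j) = cc t A ∧ insert x (A ∪ Y t) ⊆ f j ∧ y ∉ f j
  have htot : Pool.Agent.R163.VPath.Total (univ : Finset (Fin k)) W cc RR := by
    intro t A hA _ x hx y hy hxy hxA hyA
    by_contra hcon
    simp only [RR, not_or, not_not] at hcon
    obtain ⟨⟨f, hf, hf'⟩, ⟨g, hg, hg'⟩⟩ := hcon
    have hxS : x ∉ A ∪ Y t := by
      simp only [mem_union, not_or]; exact ⟨hxA, hWY x hx t⟩
    have hyS : y ∉ A ∪ Y t := by
      simp only [mem_union, not_or]; exact ⟨hyA, hWY y hy t⟩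
    obtain ⟨φ, h1, h2, h3, h4, h5⟩ := glue (A ∪ Y t) x y hxS hyS f g hf hg
      (fun j => (hf' j).2.1) (fun j => (hf' j).2.2) (fun j => (hg' j).2.1) (fun j => (hg' j).2.2)
    obtain ⟨v, hv⟩ := hno (cc t A) φ h1 h2
    apply hv
    induction v using WithBot.recBotCoe with
    | bot => rw [h3]
    | coe s =>
      rcases s with j | j
      · rw [h4]; exact (hf' j).1
      · rw [h5]; exact (hg' j).1
  set n := N - k with hn
  obtain ⟨d, hdW, A, hAmono, hAsub, hgood⟩ :=
    Pool.Agent.R163.VPath.exists_path (univ : Finset (Fin k)) W cc RR hWcard htot n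
  let E : ℕ → Finset (Fin N) := fun t => A t ∪ Y t
  have hEmono : Monotone E := fun s t hst => union_subset_union (hAmono hst) (hYmono hst)
  have hAW : ∀ t x, x ∈ A t → x ∈ W ∧ x ≠ d := fun t x hx => by
    have := hAsub t hx
    rw [mem_erase] at this
    exact ⟨this.2, this.1⟩
  have hEstrict : ∀ s t, s < t → t < n → E s ⊂ E t := by
    intro s t hst htn
    refine ⟨hEmono hst.le, fun hsub => ?_⟩
    have hlt : k + 1 + s < N := by omega
    have hmem : (⟨k + 1 + s, hlt⟩ : Fin N) ∈ E t := by
      simp only [E, Y, mem_union, mem_filter, mem_univ, true_and]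
      right; constructor <;> omega
    have hmem' := hsub hmem
    simp only [E, Y, mem_union, mem_filter, mem_univ, true_and] at hmem'
    rcases hmem' with h | h
    · have := (hAW s _ h).1
      simp only [W, mem_filter, mem_univ, true_and] at this
      omega
    · omega
  have hdE : ∀ t, d ∉ E t := by
    intro t h
    simp only [E, mem_union] at h
    rcases h with h | h
    · exact (hAW t d h).2 rfl
    · exact hWY d hdW t h
  -- every colour occurs at most `m l - 1` times
  have hcount : ∀ l : Fin k, ((range n).filter fun t => c (E t) = l).card + 1 ≤ m l := by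
    intro l
    by_contra hlt
    push Not at hlt
    set T := (range n).filter fun t => c (E t) = l with hT
    have hle : m l ≤ T.card := by omega
    have hTne : T.Nonempty := by
      rw [← card_pos]
      have := hm l
      omega
    have hTmem : ∀ t ∈ T, t < n ∧ c (E t) = l := fun t ht => by
      rw [hT, mem_filter, mem_range] at ht; exact ht
    set t0 := T.min' hTne with ht0
    obtain ⟨ht0n, ht0c⟩ := hTmem t0 (T.min'_mem hTne)
    rcases hgood t0 ht0n with h | ⟨t', ht', A', hA', hcA', y, hy, hyA', hR⟩
    · exact h (mem_univ _)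
    · have hccl : cc t' A' = l := by rw [hcA']; exact ht0c
      let h := T.orderEmbOfCardLe hle
      have hmem : ∀ j, h j ∈ T := fun j => T.orderEmbOfCardLe_mem hle j
      have hsub : ∀ j, insert y (A' ∪ Y t') ⊆ E (h j) := by
        intro j
        have hj : t0 ≤ h j := T.min'_le _ (hmem j)
        refine Subset.trans ?_ (hEmono hj)
        intro z hz
        rcases mem_insert.mp hz with rfl | hz
        · exact mem_union_left _ hy
        · rcases mem_union.mp hz with hz | hz
          · exact mem_union_left _ (hA'.1 hz)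
          · exact mem_union_right _ (hYmono ht' hz)
      clear_value h
      subst hccl
      apply hR
      refine ⟨fun j => E (h j), ?_, fun j => ⟨(hTmem _ (hmem j)).2, hsub j, hdE _⟩⟩
      intro i j hij
      exact hEstrict _ _ (h.strictMono hij) (hTmem _ (hmem j)).1
  have hsum : n = ∑ l : Fin k, ((range n).filter fun t => c (E t) = l).card := by
    conv_lhs => rw [← card_range n]
    exact card_eq_sum_card_fiberwise (f := fun t => c (E t)) (t := univ) fun _ _ => mem_coe.mpr (mem_univ _)
  have hsum2 : ∑ l : Fin k, (((range n).filter fun t => c (E t) = l).card + 1) ≤ ∑ l, m l :=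
    Finset.sum_le_sum fun l _ => hcount l
  rw [Finset.sum_add_distrib, ← hsum] at hsum2
  simp at hsum2
  omega

/-- The lower bound. -/
theorem lower {k : ℕ} (hk : 1 ≤ k) (m : Fin k → ℕ) (hm : ∀ i, 1 ≤ m i) (n : ℕ)
    (hn : n ≤ ∑ i, m i) : ¬ WeakArrows (fun i => V (m i) (m i)) n := by
  classical
  intro hW
  let lev : Fin n → (Σ i : Fin k, Fin (m i)) := fun j => finSigmaFinEquiv.symm (Fin.castLE hn j)
  have hlev : Function.Injective lev :=
    finSigmaFinEquiv.symm.injective.comp (Fin.castLE_injective hn)
  let c : Finset (Fin n) → Fin k := fun S =>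
    if h : S.card < n then (lev ⟨S.card, h⟩).1 else ⟨0, hk⟩
  obtain ⟨i, φ, hinj, hmono, hcol⟩ := hW c
  -- a chain of length `m i + 1` must reach the top
  have key : ∀ g : WithBot (Fin (m i)) → V (m i) (m i), StrictMono g →
      ∃ o, φ (g o) = univ := by
    intro g hg
    by_contra hne
    push Not at hne
    have hstrict : StrictMono fun o => (φ (g o)).card := by
      intro a b hab
      apply card_lt_card
      refine ⟨hmono _ _ (hg hab).le, fun h => ?_⟩
      have : φ (g a) = φ (g b) := subset_antisymm (hmono _ _ (hg hab).le) h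
      exact (hg hab).ne (hinj this)
    have hlt : ∀ o, (φ (g o)).card < n := by
      intro o
      have := (Finset.card_lt_iff_ne_univ _).mpr (hne o)
      simpa using this
    let F : WithBot (Fin (m i)) → (Σ i : Fin k, Fin (m i)) := fun o => lev ⟨_, hlt o⟩
    have hFinj : Function.Injective F := by
      intro a b hab
      have := hlev hab
      simp only [Fin.mk.injEq] at this
      exact hstrict.injective this
    have hF1 : ∀ o, (F o).1 = i := by
      intro o
      have := hcol (g o)
      simp only [c, dif_pos (hlt o)] at this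
      exact this
    have himg : (univ : Finset (WithBot (Fin (m i)))).image F ⊆
        (univ : Finset (Fin (m i))).map (Function.Embedding.sigmaMk i) := by
      intro z hz
      obtain ⟨o, _, rfl⟩ := mem_image.mp hz
      have h1 := hF1 o
      rcases hFo : F o with ⟨a, b⟩
      rw [hFo] at h1
      dsimp only at h1
      subst h1
      exact mem_map.mpr ⟨b, mem_univ _, rfl⟩
    have hc := card_le_card himg
    rw [card_image_of_injective _ hFinj, card_map] at hc
    have h2 : (univ : Finset (WithBot (Fin (m i)))).card = m i + 1 := by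
      rw [card_univ]
      change Fintype.card (Option (Fin (m i))) = m i + 1
      simp
    rw [h2, card_univ, Fintype.card_fin] at hc
    omega
  have hgl : StrictMono (WithBot.map (Sum.inl : Fin (m i) → Fin (m i) ⊕ Fin (m i))) :=
    WithBot.strictMono_map_iff.mpr Sum.inl_strictMono
  have hgr : StrictMono (WithBot.map (Sum.inr : Fin (m i) → Fin (m i) ⊕ Fin (m i))) :=
    WithBot.strictMono_map_iff.mpr Sum.inr_strictMono
  obtain ⟨a, ha⟩ := key _ hgl
  obtain ⟨b, hb⟩ := key _ hgr
  have hab := hinj (ha.trans hb.symm)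
  have hbot : φ ⊥ ≠ univ := by
    intro h
    have h0 : (⊥ : V (m i) (m i)) < ((Sum.inl ⟨0, hm i⟩ : Fin (m i) ⊕ Fin (m i)) : V (m i) (m i)) :=
      WithBot.bot_lt_coe _
    have h1 := hmono _ _ h0.le
    rw [h] at h1
    have h2 : φ ((Sum.inl ⟨0, hm i⟩ : Fin (m i) ⊕ Fin (m i)) : V (m i) (m i)) = univ :=
      univ_subset_iff.mp h1
    exact h0.ne (hinj (h.trans h2.symm))
  induction a using WithBot.recBotCoe with
  | bot => exact hbot ha
  | coe a =>
    induction b using WithBot.recBotCoe with
    | bot => exact hbot hb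
    | coe b =>
      have : (Sum.inl a : Fin (m i) ⊕ Fin (m i)) = Sum.inr b := WithBot.coe_injective hab
      exact absurd this (by simp)

/-- **Q1 of MP_f041cb_co.**  `R_w(V_{m_1,m_1},…,V_{m_k,m_k}) = R(V_{m_1,m_1},…,V_{m_k,m_k}) =
m_1 + … + m_k + 1` for all `k ≥ 1` and all `m_1, …, m_k ≥ 1`. -/
theorem result : ∀ k : ℕ, 1 ≤ k → ∀ m : Fin k → ℕ, (∀ i, 1 ≤ m i) →
    IsLeast {n : ℕ | WeakArrows (fun i => V (m i) (m i)) n} (∑ i, m i + 1) ∧
    IsLeast {n : ℕ | Arrows (fun i => V (m i) (m i)) n} (∑ i, m i + 1) := by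
  intro k hk m hm
  refine ⟨⟨(upper m hm).weak, ?_⟩, ⟨upper m hm, ?_⟩⟩
  · intro n hn
    by_contra hlt
    push Not at hlt
    exact lower hk m hm n (by omega) hn
  · intro n hn
    by_contra hlt
    push Not at hlt
    exact lower hk m hm n (by omega) (Arrows.weak hn)

end Pool.Agent.Results.MP_f041cb_co.SymmetricVRamsey
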